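import Mathlib

namespace Pool.Agent.Results.MP_5bfb0a_al.Yes

open Set Topology
open scoped Pointwise

variable {Γ : Type*} [Group Γ]

/-- `Λ ∩ gΛg⁻¹` has finite index in `Λ` for every `g`. -/
def Commensurated (Λ : Subgroup Γ) : Prop :=
  ∀ g : Γ, ((Λ ⊓ Λ.map (MulAut.conj g).toMonoidHom).subgroupOf Λ).FiniteIndex

/-- The family `s` lies in distinct right cosets of `Λ ∩ g⁻¹Λg`. -/
def Sep (Λ : Subgroup Γ) {m : ℕ} (s : Fin m → Λ) (g : Γ) : Prop :=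
  ∀ i j, i ≠ j → g * (s i * (s j : Γ)⁻¹) * g⁻¹ ∉ Λ

lemma exists_not_sep {Λ : Subgroup Γ} (h : Commensurated Λ) (g : Γ) :
    ∃ m, ¬ ∃ s : Fin m → Λ, Sep Λ s g := by
  let H := (Λ ⊓ Λ.map (MulAut.conj g⁻¹).toMonoidHom).subgroupOf Λ
  haveI : H.FiniteIndex := h g⁻¹
  haveI : Fintype (Λ ⧸ H) := Fintype.ofFinite _
  refine ⟨Fintype.card (Λ ⧸ H) + 1, fun ⟨s, hs⟩ => ?_⟩
  obtain ⟨i, j, hij, e⟩ := Fintype.exists_ne_map_eq_of_card_lt
    (fun i => (QuotientGroup.mk (s i)⁻¹ : Λ ⧸ H)) (by simp)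
  obtain ⟨-, y, hy, hy'⟩ := Subgroup.mem_subgroupOf.1 (QuotientGroup.eq.1 e)
  refine hs i j hij ?_
  have : (s i * (s j : Γ)⁻¹) = g⁻¹ * y * g := by simpa using hy'.symm
  rw [this]
  simpa [mul_assoc] using hy

lemma cover {Λ : Subgroup Γ} {k : ℕ} {s : Fin k → Λ} {g : Γ} (h1 : Sep Λ s g)
    (h2 : ¬ ∃ t : Fin (k + 1) → Λ, Sep Λ t g) (l : Γ) (hl : l ∈ Λ) :
    ∃ i, ∃ y ∈ Λ, g * l = y * (g * s i) := by
  by_contra h
  push Not at h
  have key : ∀ i, g * (l * (s i : Γ)⁻¹) * g⁻¹ ∉ Λ := fun i hi => h i _ hi (by group)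
  refine h2 ⟨Fin.cons ⟨l, hl⟩ s, fun i j hij => ?_⟩
  refine Fin.cases ?_ (fun i => ?_) i j hij <;> intro j <;>
    refine Fin.cases ?_ (fun j => ?_) j <;> intro hij
  · exact absurd rfl hij
  · exact key j
  · intro h
    refine key i ?_
    convert Λ.inv_mem h using 1
    simp [mul_assoc]
  · exact h1 i j fun e => hij (e ▸ rfl)

lemma exists_finite {Λ : Subgroup Γ} (h : Commensurated Λ) (a : Γ) :
    ∃ F : Set Γ, F.Finite ∧ ∀ l ∈ Λ, ∃ f ∈ F, ∃ y ∈ Λ, a * l = y * f := by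
  classical
  have h1 := Nat.find_spec (exists_not_sep h a)
  have h2 := fun m => Nat.find_min (exists_not_sep h a) (m := m)
  cases hk : Nat.find (exists_not_sep h a) with
  | zero => exact absurd ⟨Fin.elim0, fun i => i.elim0⟩ (hk ▸ h1)
  | succ k =>
    rw [hk] at h1 h2
    obtain ⟨s, hs⟩ := not_not.1 (h2 k (Nat.lt_succ_self k))
    refine ⟨range fun i => a * s i, finite_range _, fun l hl => ?_⟩
    obtain ⟨i, y, hy, e⟩ := cover hs h1 l hl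
    exact ⟨_, ⟨i, rfl⟩, y, hy, e⟩

variable [TopologicalSpace Γ] [IsTopologicalGroup Γ]

lemma isOpen_sep {Λ : Subgroup Γ} (hΛ : IsClosed (Λ : Set Γ)) {m : ℕ} (s : Fin m → Λ) :
    IsOpen {g | Sep Λ s g} := by
  simp only [Sep, setOf_forall]
  refine isOpen_iInter_of_finite fun i => isOpen_iInter_of_finite fun j =>
    isOpen_iInter_of_finite fun _ => ?_
  exact hΛ.isOpen_compl.preimage
    (f := fun g : Γ => g * (s i * (s j : Γ)⁻¹) * g⁻¹) (by fun_prop)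

lemma one_side [LocallyCompactSpace Γ] [T2Space Γ] {Λ : Subgroup Γ} (hΛ : IsClosed (Λ : Set Γ))
    (h : Commensurated Λ) (C : Set Γ) (hC : IsCompact C) :
    ∃ C' : Set Γ, IsCompact C' ∧ C * (Λ : Set Γ) ⊆ (Λ : Set Γ) * C' := by
  classical
  let A : ℕ → Set Γ := fun m => {g | ∃ s : Fin m → Λ, Sep Λ s g}ᶜ
  have hA : ∀ m, IsClosed (A m) := fun m => by
    refine IsOpen.isClosed_compl ?_
    rw [setOf_exists]
    exact isOpen_iUnion fun s => isOpen_sep hΛ s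
  have hex : ∃ m, (interior (A m)).Nonempty :=
    nonempty_interior_of_iUnion_of_closed hA (eq_univ_of_forall fun g =>
      mem_iUnion.2 (exists_not_sep h g))
  have h1 := Nat.find_spec hex
  have h2 := fun m => Nat.find_min hex (m := m)
  obtain ⟨k, s, g₀, hs, hg₀⟩ : ∃ (k : ℕ) (s : Fin k → Λ) (g₀ : Γ), Sep Λ s g₀ ∧
      g₀ ∈ interior (A (k + 1)) := by
    cases hk : Nat.find hex with
    | zero =>
      rw [hk] at h1
      obtain ⟨g, hg⟩ := h1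
      exact absurd ⟨Fin.elim0, fun i => i.elim0⟩ (interior_subset hg)
    | succ k =>
      rw [hk] at h1 h2
      by_contra hn
      push Not at hn
      refine h2 k (Nat.lt_succ_self k) (h1.mono (interior_maximal ?_ isOpen_interior))
      rintro g hg ⟨s, hs⟩
      exact hn k s g hs hg
  obtain ⟨K, hK, hK1, hK2⟩ := exists_compact_subset
    ((isOpen_sep hΛ s).inter isOpen_interior) (show g₀ ∈ _ from ⟨hs, hg₀⟩)
  choose F hF hF' using exists_finite h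
  obtain ⟨t, ht⟩ := hC.elim_finite_subcover (fun a : Γ => (fun g => a⁻¹ * g) ⁻¹' interior K)
    (fun a => isOpen_interior.preimage (by fun_prop)) fun g _ =>
      mem_iUnion.2 ⟨g * g₀⁻¹, by simpa using hK1⟩
  refine ⟨(⋃ a ∈ t, F a) * (K * range fun i => (s i : Γ)),
    (t.finite_toSet.biUnion fun a _ => hF a).isCompact.mul (hK.mul (finite_range _).isCompact), ?_⟩
  rintro _ ⟨g, hg, l, hl, rfl⟩
  obtain ⟨a, ha, hga⟩ := mem_iUnion₂.1 (ht hg)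
  have hu := hK2 (interior_subset hga)
  obtain ⟨i, y, hy, e⟩ := cover hu.1 (interior_subset hu.2) l hl
  obtain ⟨f, hf, z, hz, e'⟩ := hF' a y hy
  refine ⟨z, hz, f * (a⁻¹ * g * s i), ⟨f, mem_biUnion ha hf, _,
    ⟨_, interior_subset hga, _, ⟨i, rfl⟩, rfl⟩, rfl⟩, ?_⟩
  show z * (f * (a⁻¹ * g * s i)) = g * l
  rw [← mul_assoc, ← e', mul_assoc, ← e]
  group

theorem result (Γ : Type*) [Group Γ] [TopologicalSpace Γ] [IsTopologicalGroup Γ]
    [LocallyCompactSpace Γ] [T2Space Γ] (Λ : Subgroup Γ) (hΛ : IsClosed (Λ : Set Γ))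
    (h : Commensurated Λ) (C : Set Γ) (hC : IsCompact C) :
    ∃ C' : Set Γ, IsCompact C' ∧ C * (Λ : Set Γ) ⊆ (Λ : Set Γ) * C' ∧
      (Λ : Set Γ) * C ⊆ C' * (Λ : Set Γ) := by
  obtain ⟨D, hD, h1⟩ := one_side hΛ h C hC
  obtain ⟨E, hE, h2⟩ := one_side hΛ h C⁻¹ hC.inv
  refine ⟨D ∪ E⁻¹, hD.union hE.inv, h1.trans (mul_subset_mul_left subset_union_left), ?_⟩
  rintro _ ⟨l, hl, c, hc, rfl⟩
  obtain ⟨y, hy, e, he, h3⟩ := h2 ⟨c⁻¹, by simpa using hc, l⁻¹, Λ.inv_mem hl, rfl⟩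
  refine ⟨e⁻¹, Or.inr (by simpa using he), y⁻¹, Λ.inv_mem hy, ?_⟩
  have h4 : y * e = c⁻¹ * l⁻¹ := h3
  show e⁻¹ * y⁻¹ = l * c
  rw [← mul_inv_rev, h4]
  group

end Pool.Agent.Results.MP_5bfb0a_al.Yes
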